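import Pool.Agent.Work.MP_11a08a_al.Mx.Defs

/-!
A common eigenvector of the abelian join and the stabiliser of its character.
-/

set_option autoImplicit false

namespace Pool.Agent.Work.MP_11a08a_al.Mx

open Pool.Agent.Work.MP_11a08a_al.Fr (cz cj AbMod mem_cz)

theorem mxeig_common {L V ι : Type} [Field L] [IsAlgClosed L] [AddCommGroup V] [Module L V]
    [FiniteDimensional L V] [Nontrivial V] (T : ι → Module.End L V)
    (hT : ∀ i j v, T i (T j v) = T j (T i v)) :
    ∃ v : V, v ≠ 0 ∧ ∀ i, ∃ c : L, T i v = c • v := by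
  classical
  have hex : ∃ n : ℕ, ∃ W : Submodule L V, W ≠ ⊥ ∧ (∀ i, ∀ v ∈ W, T i v ∈ W) ∧
      Module.finrank L W = n :=
    ⟨_, ⊤, top_ne_bot, fun _ _ _ => Submodule.mem_top, rfl⟩
  obtain ⟨W, hW0, hW, hWn⟩ := Nat.find_spec hex
  have hmin : ∀ W' : Submodule L V, W' ≠ ⊥ → (∀ i, ∀ v ∈ W', T i v ∈ W') → W' ≤ W → W' = W := by
    intro W' h0 h1 hle
    refine Submodule.eq_of_le_of_finrank_le hle ?_
    rw [hWn]
    exact Nat.find_min' hex ⟨W', h0, h1, rfl⟩
  obtain ⟨v, hvW, hv0⟩ := (Submodule.ne_bot_iff W).1 hW0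
  refine ⟨v, hv0, fun i => ?_⟩
  have : Nontrivial W := Submodule.nontrivial_iff_ne_bot.2 hW0
  obtain ⟨c, hc⟩ := Module.End.exists_eigenvalue ((T i).restrict (hW i))
  obtain ⟨w, hw⟩ := hc.exists_hasEigenvector
  have hw1 : T i w = c • (w : V) := by
    have := congrArg (fun y : W => (y : V)) hw.apply_eq_smul
    simpa using this
  have hw0 : (w : V) ≠ 0 := fun h => hw.2 (Subtype.ext h)
  have := hmin (W ⊓ Module.End.eigenspace (T i) c)
    ((Submodule.ne_bot_iff _).2 ⟨w, ⟨w.2, Module.End.mem_eigenspace_iff.2 hw1⟩, hw0⟩)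
    (fun j x hx => ⟨hW j x hx.1, by
      have h2 := Module.End.mem_eigenspace_iff.1 hx.2
      refine Module.End.mem_eigenspace_iff.2 ?_
      rw [hT, h2, map_smul]⟩) inf_le_left
  rw [← this] at hvW
  exact ⟨c, Module.End.mem_eigenspace_iff.1 hvW.2⟩

theorem mxeig_onto {G : Type} [Group G] [Finite G] {A : Subgroup G} (hA : Piece A) {g : G}
    (hg : g ∉ cz A) (b : G) (hb : b ∈ A) : ∃ a ∈ A, g⁻¹ * a * g = b * a := by
  let f : A → A := fun a => ⟨g⁻¹ * a * g * (a : G)⁻¹,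
    A.mul_mem (hA.normal.conj_mem' a a.2 g) (A.inv_mem a.2)⟩
  have hf : Function.Injective f := by
    intro a a' h
    have h1 : g⁻¹ * a * g * (a : G)⁻¹ = g⁻¹ * a' * g * (a' : G)⁻¹ := congrArg Subtype.val h
    by_contra hne
    have hd : (a' : G)⁻¹ * a ≠ 1 := fun e => hne (Subtype.ext (inv_mul_eq_one.1 e).symm)
    refine hg (mem_cz.2 (hA.fpf g _ (A.mul_mem (A.inv_mem a'.2) a.2) hd ?_))
    calc g * ((a' : G)⁻¹ * a)
        = (a' : G)⁻¹ * g * (g⁻¹ * a' * g * (a' : G)⁻¹) * a := by group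
      _ = (a' : G)⁻¹ * g * (g⁻¹ * a * g * (a : G)⁻¹) * a := by rw [h1]
      _ = (a' : G)⁻¹ * a * g := by group
  obtain ⟨a, ha⟩ := Finite.surjective_of_injective hf ⟨b, hb⟩
  have h1 : g⁻¹ * a * g * (a : G)⁻¹ = b := congrArg Subtype.val ha
  exact ⟨a, a.2, by rw [← h1]; group⟩

theorem mxeig_triv {L G V : Type} [Field L] [Group G] [AddCommGroup V] [Module L V]
    (σ : Representation L G V)
    (hirr : ∀ W : Submodule L V, (∀ g, ∀ v ∈ W, σ g v ∈ W) → W = ⊥ ∨ W = ⊤)
    {A : Subgroup G} (hN : A.Normal) {v : V} (hv0 : v ≠ 0) (hva : ∀ a ∈ A, σ a v = v) :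
    ∀ a ∈ A, ∀ w, σ a w = w := by
  have hσ : ∀ g h w, σ (g * h) w = σ g (σ h w) := fun g h w => by rw [map_mul]; rfl
  let F : Submodule L V :=
    { carrier := {w | ∀ a ∈ A, σ a w = w}
      add_mem' := fun {x y} hx hy a ha => by rw [map_add, hx a ha, hy a ha]
      zero_mem' := fun a _ => map_zero _
      smul_mem' := fun t x hx a ha => by rw [map_smul, hx a ha] }
  rcases hirr F (fun g w hw a ha => by
    have h1 : g⁻¹ * a * g ∈ A := hN.conj_mem' _ ha g
    have h2 : a * g = g * (g⁻¹ * a * g) := by group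
    rw [← hσ, h2, hσ, hw _ h1]) with h1 | h1
  · exact absurd ((Submodule.eq_bot_iff _).1 h1 v hva) hv0
  · intro a ha w
    have : w ∈ F := h1 ▸ Submodule.mem_top
    exact this a ha

theorem mxeig_scalar {L G V : Type} [Field L] [IsAlgClosed L] [Group G] [AddCommGroup V]
    [Module L V] [FiniteDimensional L V] [Nontrivial V] (σ : Representation L G V)
    (hirr : ∀ W : Submodule L V, (∀ g, ∀ v ∈ W, σ g v ∈ W) → W = ⊥ ∨ W = ⊤)
    {e : ℕ} {A : Fin (e + 1) → Subgroup G} {H : Subgroup G} (htop : (⨆ i, A i) ⊔ H = ⊤) (z : G)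
    (hzH : ∀ h ∈ H, z * h = h * z) (hz : ∀ i, z ∈ cz (A i) ∨ ∀ a ∈ A i, ∀ w, σ a w = w) :
    ∃ ω : L, ∀ w, σ z w = ω • w := by
  have hσ : ∀ g h w, σ (g * h) w = σ g (σ h w) := fun g h w => by rw [map_mul]; rfl
  let K : Subgroup G :=
    { carrier := {g | ∀ w, σ z (σ g w) = σ g (σ z w)}
      one_mem' := fun w => by simp
      mul_mem' := fun {x y} hx hy w => by rw [hσ, hσ, hx, hy]
      inv_mem' := fun {x} hx w => by
        have h1 := hx (σ x⁻¹ w)
        rw [← hσ x, mul_inv_cancel, map_one, Module.End.one_apply] at h1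
        rw [h1, ← hσ x⁻¹ x, inv_mul_cancel, map_one, Module.End.one_apply] }
  have hK : (⊤ : Subgroup G) ≤ K := by
    rw [← htop]
    refine sup_le (iSup_le fun i a ha w => ?_) fun h hh w => ?_
    · rcases hz i with h | h
      · rw [← hσ, ← hσ, mem_cz.1 h a ha]
      · rw [h a ha, h a ha]
    · rw [← hσ, ← hσ, hzH h hh]
  obtain ⟨ω, hω⟩ := Module.End.exists_eigenvalue (σ z)
  refine ⟨ω, fun w => ?_⟩
  rcases hirr (Module.End.eigenspace (σ z) ω) (fun g v hv => by
    rw [Module.End.mem_eigenspace_iff] at hv ⊢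
    rw [hK (Subgroup.mem_top g) v, hv, map_smul]) with h | h
  · exact absurd h hω
  · exact Module.End.mem_eigenspace_iff.1 (h ▸ Submodule.mem_top)

theorem mxeig_idx {L G V : Type} [Field L] [Group G] [Finite G] [AddCommGroup V] [Module L V]
    (σ : Representation L G V)
    (hirr : ∀ W : Submodule L V, (∀ g, ∀ v ∈ W, σ g v ∈ W) → W = ⊥ ∨ W = ⊤)
    (N : Subgroup G) {v' : V} (hv' : v' ≠ 0) (hsc : ∀ g ∈ N, ∃ t : L, σ g v' = t • v') :
    Module.finrank L V ≤ N.index := by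
  classical
  have hσ : ∀ g h w, σ (g * h) w = σ g (σ h w) := fun g h w => by rw [map_mul]; rfl
  have hmem : ∀ g : G, σ g v' ∈ Submodule.span L (Set.range fun x : G ⧸ N => σ x.out v') := by
    intro g
    obtain ⟨n, hn⟩ := QuotientGroup.mk_out_eq_mul N g
    obtain ⟨t, ht⟩ := hsc _ (N.inv_mem n.2)
    have e : g = (g : G ⧸ N).out * (n : G)⁻¹ := by rw [hn]; group
    have e' : σ g v' = t • σ (g : G ⧸ N).out v' := by
      conv_lhs => rw [e, hσ, ht, map_smul]
    rw [e']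
    exact Submodule.smul_mem _ _ (Submodule.subset_span ⟨(g : G ⧸ N), rfl⟩)
  rcases hirr (Submodule.span L (Set.range fun x : G ⧸ N => σ x.out v')) (fun g w hw => by
    induction hw using Submodule.span_induction with
    | mem x hx =>
      obtain ⟨y, rfl⟩ := hx
      dsimp only
      rw [← hσ]
      exact hmem _
    | zero => rw [map_zero]; exact Submodule.zero_mem _
    | add x y _ _ hx hy => rw [map_add]; exact Submodule.add_mem _ hx hy
    | smul t x _ hx => rw [map_smul]; exact Submodule.smul_mem _ _ hx) with h1 | h1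
  · have := hmem 1
    rw [h1, map_one, Submodule.mem_bot] at this
    exact absurd this hv'
  · have := Fintype.ofFinite (G ⧸ N)
    rw [← finrank_top, ← h1, Subgroup.index, Nat.card_eq_fintype_card]
    exact finrank_range_le_card _

theorem eig (h1 : StmtFac) (h2 : StmtCyc) : StmtEig := by
  intro L G V _ _ _ _ _ _ _ σ e A H N hB hM hAN hirr
  classical
  rcases subsingleton_or_nontrivial V with hV | hV
  · left
    rw [Module.finrank_zero_of_subsingleton]; exact Nat.zero_le _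
  obtain ⟨-, hBc, -, -⟩ := h1 G (e + 1) A (fun i => (hM.piece i).normal) hM.comm
  have hσ : ∀ g h w, σ (g * h) w = σ g (σ h w) := fun g h w => by rw [map_mul]; rfl
  have hle : ∀ i, A i ≤ ⨆ i, A i := fun i => le_iSup A i
  obtain ⟨v, hv0, hv⟩ := mxeig_common (fun a : ↥(⨆ i, A i) => σ a) (fun a b w => by
    show σ a (σ b w) = σ b (σ a w)
    rw [← hσ, ← hσ, hBc a a.2 b b.2])
  choose c hc using hv
  have hinj : ∀ s t : L, s • v = t • v → s = t := fun s t e => smul_left_injective L hv0 e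
  let χ : ↥(⨆ i, A i) →* L :=
    { toFun := c
      map_one' := hinj _ _ (by rw [← hc]; simp)
      map_mul' := fun a b => hinj _ _ (by
        rw [← hc, Subgroup.coe_mul, hσ, hc b, map_smul, hc a, smul_smul, mul_comm]) }
  have hχ : ∀ a : ↥(⨆ i, A i), σ a v = χ a • v := hc
  let I : Fin (e + 1) → Prop := fun i => ∃ a : ↥(⨆ i, A i), (a : G) ∈ A i ∧ χ a ≠ 1
  have hI : ∀ i, ¬ I i → ∀ a ∈ A i, ∀ w, σ a w = w := by
    intro i hi
    refine mxeig_triv σ hirr (hM.piece i).normal hv0 fun a ha => ?_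
    have h3 : χ ⟨a, hle i ha⟩ = 1 := by
      by_contra hn
      exact hi ⟨⟨a, hle i ha⟩, ha, hn⟩
    have := hχ ⟨a, hle i ha⟩
    rwa [h3, one_smul] at this
  by_cases hex : ∃ i, I i
  · obtain ⟨i0, hi0⟩ := hex
    let C : Subgroup G := ⨅ (i : Fin (e + 1)) (_ : I i), cz (A i)
    have hC : ∀ g, g ∈ C ↔ ∀ i, I i → g ∈ cz (A i) := fun g => by
      simp only [C, Subgroup.mem_iInf]
    have hsc : ∀ g ∈ C, ∃ (a : ↥(⨆ i, A i)) (ω : L), ∀ w, σ g w = ω • σ a w := by
      intro g hg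
      obtain ⟨a, ha, z, -, hzH, rfl⟩ := hM.cen i0 g ((hC g).1 hg i0 hi0)
      obtain ⟨ω, hω⟩ := mxeig_scalar σ hirr hM.top z hzH fun i => by
        by_cases hi : I i
        · left
          have h3 : a ∈ cz (A i) := mem_cz.2 fun b hb => hBc a ha b (hle i hb)
          have h4 := Subgroup.mul_mem _ (Subgroup.inv_mem _ h3) ((hC _).1 hg i hi)
          rwa [inv_mul_cancel_left] at h4
        · exact Or.inr (hI i hi)
      exact ⟨⟨a, ha⟩, ω, fun w => by rw [hσ, hω, map_smul]⟩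
    refine Or.inr ⟨χ, v, C, hv0, hχ, ⟨⟨fun n hn g => (hC _).2 fun i hi => ?_⟩, ?_, ?_⟩, hsc⟩
    · have := (hM.piece i).normal
      exact (inferInstance : (cz (A i)).Normal).conj_mem _ ((hC _).1 hn i hi) g
    · intro g hg
      rw [hC] at hg
      push Not at hg
      obtain ⟨i, ⟨b, hb, hb1⟩, hg⟩ := hg
      obtain ⟨a, ha, hab⟩ := mxeig_onto (hM.piece i) hg b hb
      refine ⟨⟨a, hle i ha⟩, fun h => hb1 ?_⟩
      have h3 : cj hB g ⟨a, hle i ha⟩ = b * ⟨a, hle i ha⟩ := Subtype.ext hab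
      rw [h3, map_mul] at h
      have h4 : χ ⟨a, hle i ha⟩ * χ (⟨a, hle i ha⟩ : ↥(⨆ i, A i))⁻¹ = 1 := by
        rw [← map_mul, mul_inv_cancel, map_one]
      exact mul_right_cancel₀ (left_ne_zero_of_mul_eq_one h4) (h.trans (one_mul _).symm)
    · intro g hg a
      obtain ⟨a', ω, hω⟩ := hsc g hg
      have h3 : σ g v = (ω * χ a') • v := by rw [hω, hχ, smul_smul]
      have h4 : σ g v ≠ 0 := fun h => hv0 (by
        have : σ g⁻¹ (σ g v) = v := by
          rw [← hσ, inv_mul_cancel, map_one, Module.End.one_apply]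
        rw [← this, h, map_zero])
      have h5 : σ g (σ (cj hB g a) v) = σ a (σ g v) := by
        have : g * (cj hB g a : G) = a * g := by
          show g * (g⁻¹ * a * g) = a * g
          group
        rw [← hσ, ← hσ, this]
      have h6 : σ a (σ g v) = χ a • σ g v := by
        rw [h3, map_smul, hχ, smul_comm]
      rw [hχ, map_smul, h6] at h5
      exact smul_left_injective L h4 h5
  · left
    have hall : ∀ i, ∀ a ∈ A i, ∀ w, σ a w = w := fun i => hI i fun hi => hex ⟨i, hi⟩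
    have hBt : (⨆ i, A i) ≤ MonoidHom.ker σ :=
      iSup_le fun i a ha => MonoidHom.mem_ker.2 (LinearMap.ext (hall i a ha))
    have hker : ∀ g ∈ cz (A 0), ∃ ω : L, ∀ w, σ g w = ω • w := by
      intro g hg
      obtain ⟨a, ha, z, -, hzH, rfl⟩ := hM.cen 0 g hg
      obtain ⟨ω, hω⟩ := mxeig_scalar σ hirr hM.top z hzH fun i => Or.inr (hall i)
      refine ⟨ω, fun w => ?_⟩
      rw [hσ, MonoidHom.mem_ker.1 (hBt ha), Module.End.one_apply, hω]
    obtain ⟨g0, -, hg0⟩ := h2 G (A 0) N (hM.piece 0) hAN.2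
    obtain ⟨μ, hμ⟩ := Module.End.exists_eigenvalue (σ g0)
    obtain ⟨v', hv'⟩ := hμ.exists_hasEigenvector
    have hp : ∀ n : ℕ, σ (g0 ^ n) v' = μ ^ n • v' := by
      intro n
      induction n with
      | zero => simp
      | succ n ih =>
        rw [pow_succ, hσ, hv'.apply_eq_smul, map_smul, ih, smul_smul, pow_succ, mul_comm]
    refine mxeig_idx σ hirr N hv'.2 fun g hg => ?_
    obtain ⟨n, hn⟩ := hg0 g hg
    obtain ⟨ω, he⟩ := hker _ hn
    have : σ g v' = σ (g0 ^ n) (σ ((g0 ^ n)⁻¹ * g) v') := by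
      rw [← hσ, mul_inv_cancel_left]
    exact ⟨ω * μ ^ n, by rw [this, he v', map_smul, hp, smul_smul]⟩

end Pool.Agent.Work.MP_11a08a_al.Mx
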