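import Pool.Agent.Work.MP_11a08a_al.Mx.Defs

/-!
The rank bound over algebraically closed fields for boundedly many free pieces.
-/

set_option autoImplicit false

open Finset
open scoped commutatorElement

namespace Pool.Agent.Work.MP_11a08a_al.Mx

open Pool.Agent.Work.MP_11a08a_al.Fr (cz cj AbMod)

theorem mxrep_repr {L V ι : Type} [Field L] [AddCommGroup V] [Module L V] [DecidableEq ι]
    (b : Module.Basis ι L V) {q : ℕ} (f : Fin q → V →ₗ[L] V) (β κ : Fin q → L) (p : Fin q → ι)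
    (x y : ι) (hf : ∀ l, f l (b x) = κ l • b (p l)) :
    b.repr ((∑ l, β l • f l) (b x)) y = ∑ l, if p l = y then β l * κ l else 0 := by
  rw [LinearMap.sum_apply, map_sum, Finsupp.finsetSum_apply]
  refine Finset.sum_congr rfl fun l _ => ?_
  rw [LinearMap.smul_apply, hf, smul_smul, map_smul, b.repr_self, Finsupp.smul_apply,
    Finsupp.single_apply]
  split_ifs <;> simp

theorem mxrep_smul {G : Type} [Group G] (C : Subgroup G) [hC : C.Normal] (g g' : G) (x : G ⧸ C) :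
    g' • x = g • x ↔ g⁻¹ * g' ∈ C := by
  induction x using QuotientGroup.induction_on with
  | H z =>
    rw [MulAction.Quotient.smul_mk, MulAction.Quotient.smul_mk, eq_comm, QuotientGroup.eq,
      smul_eq_mul, smul_eq_mul]
    have e : (g * z)⁻¹ * (g' * z) = z⁻¹ * (g⁻¹ * g') * z⁻¹⁻¹ := by group
    rw [e]
    exact ⟨fun h => by simpa [mul_assoc] using hC.conj_mem _ h z, fun h => hC.conj_mem _ h z⁻¹⟩

theorem mxrep_main (h6 : Cp.StmtMono) {L G V : Type} [Field L] [Group G] [Finite G]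
    [AddCommGroup V] [Module L V] (σ : G → V →ₗ[L] V) {A C : Subgroup G} (hA : A.Normal)
    (hC : C.Normal) (χ : A →* L) {q : ℕ} (h : Fin q → G) (β : Fin q → L) (hM : ∑ l, β l • σ (h l) ≠ 0)
    (b : Module.Basis (G ⧸ C) L V) (κ : G → G ⧸ C → L)
    (hσ : ∀ g x, σ g (b x) = κ g x • b (g • x)) (hκ : ∀ g x, κ g x ≠ 0)
    (he : ∀ g g', g⁻¹ * g' ∈ C → ∃ (a : A) (ω : L), ∀ x : G ⧸ C,
      κ g' x = ω * χ (cj hA x.out a) * κ g x) :
    ∃ (a : Fin q → A) (β' : Fin q → L),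
      (∃ x : G ⧸ C, ∑ l, β' l * χ (cj hA x.out (a l)) ≠ 0) ∧
      Nat.card {x : G ⧸ C // ∑ l, β' l * χ (cj hA x.out (a l)) ≠ 0} ≤
        (2 * q + 1) * Module.finrank L (LinearMap.range (∑ l, β l • σ (h l))) := by
  classical
  let _ : Fintype (G ⧸ C) := Fintype.ofFinite _
  have hrepr : ∀ x y, b.repr ((∑ l, β l • σ (h l)) (b x)) y =
      ∑ l, if h l • x = y then β l * κ (h l) x else 0 := fun x y =>
    mxrep_repr b (fun l => σ (h l)) β (fun l => κ (h l) x) (fun l => h l • x) x y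
      fun l => hσ (h l) x
  have hsupp : ∀ x y, b.repr ((∑ l, β l • σ (h l)) (b x)) y ≠ 0 → ∃ l, y = h l • x := by
    intro x y hne
    rw [hrepr] at hne
    obtain ⟨l, -, hl⟩ := Finset.exists_ne_zero_of_sum_ne_zero hne
    exact ⟨l, by by_contra hc; exact hl (if_neg fun e => hc e.symm)⟩
  obtain ⟨x0, hx0⟩ : ∃ x, (∑ l, β l • σ (h l)) (b x) ≠ 0 := by
    by_contra hc
    simp only [not_exists, not_not] at hc
    exact hM (b.ext fun x => by rw [hc x]; rfl)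
  obtain ⟨y0, hy0⟩ : ∃ y, b.repr ((∑ l, β l • σ (h l)) (b x0)) y ≠ 0 := by
    by_contra hc
    simp only [not_exists, not_not] at hc
    exact hx0 (b.repr.injective (by ext y; rw [hc y]; simp))
  obtain ⟨l0, rfl⟩ := hsupp x0 y0 hy0
  have hch : ∀ l, ∃ (a : A) (ω : L), (h l0)⁻¹ * h l ∈ C → ∀ x : G ⧸ C,
      κ (h l) x = ω * χ (cj hA x.out a) * κ (h l0) x := by
    intro l
    by_cases hl : (h l0)⁻¹ * h l ∈ C
    · obtain ⟨e, ω, hh⟩ := he _ _ hl
      exact ⟨e, ω, fun _ => hh⟩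
    · exact ⟨1, 0, fun hh => absurd hh hl⟩
  choose e ω heω using hch
  have key : ∀ x : G ⧸ C, b.repr ((∑ l, β l • σ (h l)) (b x)) (h l0 • x) =
      κ (h l0) x * ∑ l, (if (h l0)⁻¹ * h l ∈ C then β l * ω l else 0) *
        χ (cj hA x.out (e l)) := by
    intro x
    rw [hrepr, Finset.mul_sum]
    refine Finset.sum_congr rfl fun l _ => ?_
    by_cases hl : (h l0)⁻¹ * h l ∈ C
    · rw [if_pos ((mxrep_smul _ _ _ x).2 hl), if_pos hl, heω l hl x]
      ring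
    · rw [if_neg fun hh => hl ((mxrep_smul _ _ _ x).1 hh), if_neg hl]
      ring
  refine ⟨e, fun l => if (h l0)⁻¹ * h l ∈ C then β l * ω l else 0, ⟨x0, fun hz => ?_⟩, ?_⟩
  · rw [key, hz, mul_zero] at hy0
    exact hy0 rfl
  · rw [Nat.card_eq_fintype_card, Fintype.card_subtype]
    refine h6 L V (G ⧸ C) b _ q (fun l x => h l • x) l0 _
      (fun l => MulAction.injective (h l)) hsupp fun x hx => ?_
    rw [key]
    exact mul_ne_zero (hκ _ _) (Finset.mem_filter.1 hx).2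

theorem mxrep_log {ε : ℝ} (hε : 0 < ε) {m g : ℕ} (hg : 1 ≤ g) (h : 2 ^ m ≤ 2 * g) :
    (m : ℝ) ≤ (1 + 1 / (ε * Real.log 2)) * (g : ℝ) ^ ε := by
  have g1 : (1 : ℝ) ≤ g := by exact_mod_cast hg
  have l2 : 0 < Real.log 2 := Real.log_pos one_lt_two
  have h1 : (2 : ℝ) ^ m ≤ 2 * g := by exact_mod_cast h
  have h2 := Real.log_le_log (by positivity) h1
  rw [Real.log_pow, Real.log_mul two_ne_zero (by positivity)] at h2
  have h3 : Real.log g ≤ (g : ℝ) ^ ε / ε := Real.log_le_rpow_div (by positivity) hε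
  have h4 : (1 : ℝ) ≤ (g : ℝ) ^ ε := Real.one_le_rpow g1 hε.le
  have h5 : (1 + 1 / (ε * Real.log 2)) * (g : ℝ) ^ ε * Real.log 2 =
      (g : ℝ) ^ ε * Real.log 2 + (g : ℝ) ^ ε / ε := by
    field_simp
  refine le_of_mul_le_mul_right ?_ l2
  rw [h5]
  nlinarith

theorem mxrep_sub (h1 : StmtFac) (h2 : StmtAb) {ε : ℝ} (hε : 0 < ε) {d e : ℕ} {G : Type} [Group G]
    [Finite G] {A : Fin (e + 1) → Subgroup G} {H H₀ : Subgroup G} (hA : MixG A H)
    (hH : H₀.index ≤ d) (hcm : ∀ x ∈ ⁅H₀, H₀⁆, ∀ y ∈ ⁅H₀, H₀⁆, ⁅x, y⁆ ∈ cz (⨆ i, A i)) :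
    ∃ N N₀ : Subgroup G, AbMod (A 0) N₀ ∧ N ≤ N₀ ∧ (∀ x ∈ N, ∀ y ∈ N, ⁅x, y⁆ ∈ cz (⨆ i, A i)) ∧
      (N.index : ℝ) ≤ ((1 + 1 / (ε / (e + 1 : ℕ) * Real.log 2)) * d) ^ (e + 1) *
        (Nat.card G : ℝ) ^ ε := by
  have hle : ∀ i, cz (⨆ i, A i) ≤ cz (A i) := fun i =>
    Subgroup.centralizer_le (SetLike.coe_subset_coe.2 (le_iSup A i))
  choose N m a1 a2 a3 using fun i =>
    h2 G (A i) H₀ (hA.piece i) fun x hx y hy => hle i (hcm x hx y hy)
  obtain ⟨-, -, hz, -⟩ := h1 G (e + 1) A (fun i => (hA.piece i).normal) hA.comm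
  refine ⟨⨅ i, N i, N 0, a1 0, iInf_le N 0, fun x hx y hy => hz _ fun i =>
    (a1 i).2 x (Subgroup.mem_iInf.1 hx i) y (Subgroup.mem_iInf.1 hy i), ?_⟩
  have he : (0 : ℝ) < (e + 1 : ℕ) := by positivity
  have hε' : 0 < ε / (e + 1 : ℕ) := div_pos hε he
  have l2 : 0 < Real.log 2 := Real.log_pos one_lt_two
  obtain ⟨c1, e1⟩ : ∃ c1 : ℝ, c1 = 1 + 1 / (ε / (e + 1 : ℕ) * Real.log 2) := ⟨_, rfl⟩
  have hc1 : 0 < c1 := by rw [e1]; positivity
  rw [← e1]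
  have b1 : ∀ i, ((N i).index : ℝ) ≤ c1 * d * (Nat.card G : ℝ) ^ (ε / (e + 1 : ℕ)) := fun i => by
    have b2 := mxrep_log hε' Nat.card_pos (a3 i)
    rw [← e1] at b2
    have b3 : ((N i).index : ℝ) ≤ m i * d := by
      exact_mod_cast (a2 i).trans (Nat.mul_le_mul_left _ hH)
    have b4 := mul_le_mul_of_nonneg_right b2 (Nat.cast_nonneg (α := ℝ) d)
    linarith
  have b5 : ((⨅ i, N i).index : ℝ) ≤ ∏ i, ((N i).index : ℝ) := by
    exact_mod_cast Subgroup.index_iInf_le N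
  refine b5.trans ((Finset.prod_le_prod (fun i _ => Nat.cast_nonneg _) fun i _ => b1 i).trans
    (le_of_eq ?_))
  rw [Finset.prod_const, Finset.card_univ, Fintype.card_fin, mul_pow,
    ← Real.rpow_natCast ((Nat.card G : ℝ) ^ (ε / (e + 1 : ℕ))), ← Real.rpow_mul (Nat.cast_nonneg _),
    div_mul_cancel₀ _ he.ne']

theorem rep (h1 : StmtFac) (h2 : StmtAb) (h3 : StmtEig) (h4 : StmtStruct) (h5 : StmtCount)
    (h6 : Cp.StmtMono) : StmtRep := by
  intro δ hδ q d e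
  have hε : 0 < δ / 2 := half_pos hδ
  obtain ⟨c0, hc0, hC⟩ := h5 (δ / 2) hε q (e + 1)
  have l2 : 0 < Real.log 2 := Real.log_pos one_lt_two
  obtain ⟨c1, e1⟩ : ∃ c1 : ℝ,
      c1 = ((1 + 1 / (δ / 2 / (e + 1 : ℕ) * Real.log 2)) * d) ^ (e + 1) := ⟨_, rfl⟩
  have hc1 : 0 ≤ c1 := by rw [e1]; positivity
  refine ⟨1 + c1 * (1 + (2 * q + 1) / c0), by positivity, ?_⟩
  intro L G V _ _ _ _ _ _ _ σ A H H₀ hA hH hcm hirr h β hM
  obtain ⟨hB, -⟩ := h1 G (e + 1) A (fun i => (hA.piece i).normal) hA.comm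
  obtain ⟨N, N₀, a1, a2, a3, b4⟩ := mxrep_sub h1 h2 hε hA hH hcm
  rw [← e1] at b4
  have hN1 : (1 : ℝ) ≤ (Nat.card G : ℝ) := by exact_mod_cast Nat.card_pos
  have hE : (1 : ℝ) ≤ (Nat.card G : ℝ) ^ (δ / 2) := Real.one_le_rpow hN1 hε.le
  have hEE : (Nat.card G : ℝ) ^ δ = (Nat.card G : ℝ) ^ (δ / 2) * (Nat.card G : ℝ) ^ (δ / 2) := by
    rw [← Real.rpow_add (by linarith), add_halves]
  have hS : (1 : ℝ) ≤ Module.finrank L (LinearMap.range (∑ l, β l • σ (h l))) := by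
    have : Module.finrank L (LinearMap.range (∑ l, β l • σ (h l))) ≠ 0 := fun h0 =>
      hM (LinearMap.range_eq_bot.1 (Submodule.finrank_eq_zero.1 h0))
    exact_mod_cast Nat.one_le_iff_ne_zero.2 this
  obtain ⟨S, hSe⟩ : ∃ S : ℝ, S = Module.finrank L (LinearMap.range (∑ l, β l • σ (h l))) :=
    ⟨_, rfl⟩
  obtain ⟨E, hEe⟩ : ∃ E : ℝ, E = (Nat.card G : ℝ) ^ (δ / 2) := ⟨_, rfl⟩
  rw [hEE, ← hSe]
  rw [← hSe] at hS
  rw [← hEe] at hE b4 ⊢
  have hES : 1 ≤ E * S := one_le_mul_of_one_le_of_one_le hE hS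
  have hq : (0 : ℝ) ≤ (2 * q + 1) / c0 := by positivity
  have hT : 0 ≤ c1 * E := by positivity
  have fin : ∀ r : ℝ, r ≤ (1 + (2 * q + 1) / c0) * (E * S) → 0 ≤ r →
      r * N.index ≤ (1 + c1 * (1 + (2 * q + 1) / c0)) * (E * E) * S := fun r hr h0 => by
    have k1 : r * N.index ≤ (1 + (2 * q + 1) / c0) * (E * S) * (c1 * E) :=
      mul_le_mul hr b4 (Nat.cast_nonneg _) (by positivity)
    have k2 : 0 ≤ E * E * S := by positivity
    nlinarith
  have hidx : ∀ {K K' : Subgroup G}, K ≤ K' → K'.index ≤ K.index := fun {K K'} hK =>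
    Nat.le_of_dvd (Nat.pos_of_ne_zero K.index_ne_zero_of_finite) (Subgroup.index_dvd_of_le hK)
  obtain hd | ⟨χ, v, C, v1, v2, v3, v4⟩ := h3 L G V σ e A H N₀ hB hA a1 hirr
  · have k1 : (Module.finrank L V : ℝ) ≤ N.index := by exact_mod_cast hd.trans (hidx a2)
    have k2 := fin 1 (by nlinarith) zero_le_one
    linarith
  obtain ⟨b, κ, hσ, hκ, he⟩ := h4 L G V σ _ C hB hirr χ v v1 v2 v3 v4
  obtain ⟨a, β', hx, hX⟩ := mxrep_main h6 (fun g => σ g) hB v3.normal χ h β hM b κ hσ hκ he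
  have g1 := hC L G A N C hB hA.piece hA.comm a3 χ a β' v3 hx
  have hdim : (Module.finrank L V : ℝ) ≤ C.relIndex N * N.index := by
    rw [Module.finrank_eq_nat_card_basis b, ← Nat.cast_mul, ← Subgroup.inf_relIndex_right,
      Subgroup.relIndex_mul_index inf_le_right]
    exact_mod_cast hidx (inf_le_left : C ⊓ N ≤ C)
  have g3 : c0 * C.relIndex N ≤ E * ((2 * q + 1) * S) := by
    rw [← hEe] at g1
    refine g1.trans (mul_le_mul_of_nonneg_left ?_ (by linarith))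
    rw [hSe]
    exact_mod_cast hX
  have g4 : (C.relIndex N : ℝ) ≤ (2 * q + 1) / c0 * (E * S) := by
    rw [div_mul_eq_mul_div, le_div_iff₀ hc0]
    linarith
  exact hdim.trans (fin _ (by nlinarith) (Nat.cast_nonneg _))

end Pool.Agent.Work.MP_11a08a_al.Mx
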