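import Pool.Agent.Work.MP_11a08a_al.Mx.Defs

/-!
The ring attached to a character, with one ideal for each piece.
-/

set_option autoImplicit false

open scoped commutatorElement

namespace Pool.Agent.Work.MP_11a08a_al.Mx

open Pool.Agent.Work.MP_11a08a_al.Fr (cz cj AbMod)

theorem mxring_mod (S M L : Type) [CommRing S] [AddCommGroup M] [Module S M] [Finite M] [Field L]
    (θ : AddChar M L) :
    ∃ (R : Type) (_ : CommRing R) (_ : Fintype R) (_ : DecidableEq R) (p : S →+* R)
      (Ψ : M → AddChar R L), Fintype.card R ≤ Nat.card M ∧ Function.Surjective p ∧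
      (∀ y, (∀ a, Ψ a y = 1) → y = 0) ∧ ∀ (a : M) (s : S), Ψ a (p s) = θ (s • a) := by
  classical
  let I : Ideal S :=
    { carrier := {x | ∀ m : M, θ (x • m) = 1}
      add_mem' := by
        intro a b ha hb m
        rw [add_smul, θ.map_add_eq_mul, ha m, hb m, one_mul]
      zero_mem' := by
        intro m
        rw [zero_smul, θ.map_zero_eq_one]
      smul_mem' := by
        intro c x hx m
        rw [smul_eq_mul, mul_comm, mul_smul]
        exact hx _ }
  have hI : ∀ x : S, x ∈ I ↔ ∀ m : M, θ (x • m) = 1 := fun x => Iff.rfl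
  have hsur : Function.Surjective (Ideal.Quotient.mk I) := Ideal.Quotient.mk_surjective
  choose r hr using hsur
  have key : ∀ (s : S) (m : M), θ (r (Ideal.Quotient.mk I s) • m) = θ (s • m) := by
    intro s m
    have h1 : r (Ideal.Quotient.mk I s) - s ∈ I := Ideal.Quotient.eq.1 (hr _)
    have h2 := (hI _).1 h1 m
    have h3 : r (Ideal.Quotient.mk I s) • m = (r (Ideal.Quotient.mk I s) - s) • m + s • m := by
      rw [← add_smul, sub_add_cancel]
    rw [h3, θ.map_add_eq_mul, h2, one_mul]
  let Ψ : M → AddChar (S ⧸ I) L := fun m =>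
    { toFun := fun y => θ (r y • m)
      map_zero_eq_one' := by
        rw [← map_zero (Ideal.Quotient.mk I), key, zero_smul, θ.map_zero_eq_one]
      map_add_eq_mul' := by
        intro a b
        have : a + b = Ideal.Quotient.mk I (r a + r b) := by rw [map_add, hr, hr]
        rw [this, key, add_smul, θ.map_add_eq_mul] }
  have hfa : ∀ y, (∀ a, Ψ a y = 1) → y = 0 := by
    intro y hy
    rw [← hr y]
    exact Ideal.Quotient.eq_zero_iff_mem.2 ((hI _).2 hy)
  let F : S ⧸ I → (Multiplicative M →* L) := fun y =>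
    { toFun := fun m => θ (r y • m.toAdd)
      map_one' := by rw [toAdd_one, smul_zero, θ.map_zero_eq_one]
      map_mul' := by
        intro a b
        rw [toAdd_mul, smul_add, θ.map_add_eq_mul] }
  have hF : Function.Injective F := by
    intro x y hxy
    rw [← sub_eq_zero]
    apply hfa
    intro a
    have h1 : Ψ a x = Ψ a y := DFunLike.congr_fun hxy (Multiplicative.ofAdd a)
    have h2 : Ψ a (x - y) = Ψ a x * Ψ a (-y) := by
      rw [← AddChar.map_add_eq_mul, sub_eq_add_neg]
    rw [h2, h1, ← AddChar.map_add_eq_mul, add_neg_cancel, AddChar.map_zero_eq_one]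
  have hli := (linearIndependent_monoidHom (Multiplicative M) L).comp F hF
  haveI : Finite (S ⧸ I) := hli.finite
  letI : Fintype (S ⧸ I) := Fintype.ofFinite _
  letI : Fintype M := Fintype.ofFinite _
  refine ⟨S ⧸ I, inferInstance, inferInstance, inferInstance, Ideal.Quotient.mk I, Ψ, ?_,
    Ideal.Quotient.mk_surjective, hfa, fun a s => key s a⟩
  have := hli.fintype_card_le_finrank
  rw [Module.finrank_fintype_fun_eq_card, Fintype.card_multiplicative] at this
  rw [Nat.card_eq_fintype_card]
  exact this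

theorem mxring_pow (S M : Type) [CommRing S] [AddCommGroup M] [Module S M] [Finite M]
    (P : AddSubgroup M) (s : S) (hs : ∀ m ∈ P, s • m ∈ P) (hi : ∀ m ∈ P, s • m = 0 → m = 0) :
    ∃ k : ℕ, ∀ m ∈ P, (1 - s * s ^ k) • m = 0 := by
  let f : P → P := fun a => ⟨s • a.1, hs a.1 a.2⟩
  have hinj : Function.Injective f := by
    intro a b hab
    apply Subtype.ext
    rw [← sub_eq_zero]
    apply hi _ (P.sub_mem a.2 b.2)
    rw [smul_sub]
    exact sub_eq_zero.2 (congrArg Subtype.val hab)
  let σ : Equiv.Perm P := Equiv.ofBijective f (Finite.injective_iff_bijective.1 hinj)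
  have hk : ∀ (k : ℕ) (a : P), ((σ ^ k) a : M) = s ^ k • (a : M) := by
    intro k
    induction k with
    | zero =>
      intro a
      rw [pow_zero, pow_zero, one_smul]
      rfl
    | succ k ih =>
      intro a
      rw [pow_succ', pow_succ', mul_smul, ← ih a]
      rfl
  obtain ⟨k, hk1⟩ := Nat.exists_eq_succ_of_ne_zero (orderOf_pos σ).ne'
  refine ⟨k, fun m hm => ?_⟩
  have h1 := hk (orderOf σ) ⟨m, hm⟩
  rw [pow_orderOf_eq_one, hk1, Nat.succ_eq_add_one, pow_succ'] at h1
  rw [sub_smul, one_smul, sub_eq_zero]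
  exact h1

theorem mxring_map {S R : Type} [CommRing S] [CommRing R] (p : S →+* R) (s : S) (k : ℕ) :
    p (1 - s * s ^ k) = 1 - p s * p s ^ k := by
  rw [map_sub, map_one, map_mul, map_pow]

theorem mxring_end (G M L : Type) [Group G] [AddCommGroup M] [Finite M] [Field L] (e : ℕ)
    (P : Fin e → AddSubgroup M) (act : G →* AddMonoid.End M)
    (hc : ∀ g g', act g * act g' = act g' * act g) (θ : AddChar M L)
    (hP : ∀ i g, ∀ m ∈ P i, act g m ∈ P i)
    (hf : ∀ i g, (∀ m ∈ P i, act g m = m) ∨ ∀ m ∈ P i, act g m = m → m = 0) :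
    ∃ (R : Type) (_ : CommRing R) (_ : Fintype R) (_ : DecidableEq R) (u : G →* R)
      (Ψ : M → AddChar R L) (I : Fin e → Ideal R), Fintype.card R ≤ Nat.card M ∧
      (∀ i g, u g - 1 ∈ I i ∨ ∃ y, 1 - (u g - 1) * y ∈ I i) ∧
      (∀ y, (∀ a, Ψ a y = 1) → y = 0) ∧ (∀ a b y, Ψ (a + b) y = Ψ a y * Ψ b y) ∧
      (∀ i y, y ∈ I i ↔ ∀ a ∈ P i, Ψ a y = 1) ∧ ∀ (a : M) (g : G), Ψ a (u g) = θ (act g a) := by
  let T : Subring (AddMonoid.End M) :=
    { carrier := {x | (∀ g, act g * x = x * act g) ∧ ∀ i, ∀ m ∈ P i, x m ∈ P i}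
      mul_mem' := by
        rintro a b ⟨a1, a2⟩ ⟨b1, b2⟩
        refine ⟨fun g => ?_, fun i m hm => a2 i _ (b2 i m hm)⟩
        rw [← mul_assoc, a1, mul_assoc, b1, mul_assoc]
      one_mem' := ⟨fun g => by rw [mul_one, one_mul], fun _ _ hm => hm⟩
      add_mem' := by
        rintro a b ⟨a1, a2⟩ ⟨b1, b2⟩
        refine ⟨fun g => ?_, fun i m hm => (P i).add_mem (a2 i m hm) (b2 i m hm)⟩
        rw [mul_add, add_mul, a1, b1]
      zero_mem' := ⟨fun g => by rw [mul_zero, zero_mul], fun i _ _ => (P i).zero_mem⟩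
      neg_mem' := by
        rintro a ⟨a1, a2⟩
        refine ⟨fun g => ?_, fun i m hm => (P i).neg_mem (a2 i m hm)⟩
        rw [mul_neg, neg_mul, a1] }
  have hT : ∀ g, act g ∈ T := fun g => ⟨fun g' => hc g' g, fun i => hP i g⟩
  let u1 : G →* T := act.codRestrict T hT
  have hS : ∀ g, u1 g ∈ Subring.center T := by
    intro g
    rw [Subring.mem_center_iff]
    intro t
    apply Subtype.ext
    exact (t.2.1 g).symm
  let u2 : G →* Subring.center T := u1.codRestrict (Subring.center T) hS
  let ρ : Subring.center T →+* AddMonoid.End M := T.subtype.comp (Subring.center T).subtype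
  letI : Module (Subring.center T) M := Module.compHom M ρ
  have hsm : ∀ (g : G) (m : M), u2 g • m = act g m := fun _ _ => rfl
  have hin : ∀ (s : Subring.center T) i, ∀ m ∈ P i, s • m ∈ P i := fun s i m hm => s.1.2.2 i m hm
  obtain ⟨R, i1, i2, i3, p, Ψ, hcard, hp, hfa, hΨ⟩ := mxring_mod (Subring.center T) M L θ
  let I : Fin e → Ideal R := fun i =>
    { carrier := {y | ∀ a ∈ P i, Ψ a y = 1}
      add_mem' := by
        intro a b ha hb m hm
        rw [AddChar.map_add_eq_mul, ha m hm, hb m hm, one_mul]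
      zero_mem' := fun m _ => AddChar.map_zero_eq_one _
      smul_mem' := by
        intro c x hx m hm
        obtain ⟨c, rfl⟩ := hp c
        obtain ⟨x, rfl⟩ := hp x
        rw [smul_eq_mul, ← map_mul, hΨ, mul_comm, mul_smul, ← hΨ]
        exact hx _ (hin c i m hm) }
  have hI : ∀ i y, y ∈ I i ↔ ∀ a ∈ P i, Ψ a y = 1 := fun _ _ => Iff.rfl
  have hz : ∀ i (s : Subring.center T), (∀ m ∈ P i, s • m = 0) → p s ∈ I i := by
    intro i s hs
    rw [hI]
    intro a ha
    rw [hΨ, hs a ha, θ.map_zero_eq_one]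
  let u : G →* R := (p : Subring.center T →* R).comp u2
  have hu' : ∀ g, u g - 1 = p (u2 g - 1) := by
    intro g
    rw [map_sub, map_one]
    rfl
  refine ⟨R, i1, i2, i3, u, Ψ, I, hcard, ?_, hfa, ?_, hI, fun a g => hΨ a (u2 g)⟩
  · intro i g
    rw [hu']
    rcases hf i g with h | h
    · refine Or.inl (hz i _ fun m hm => ?_)
      rw [sub_smul, one_smul, hsm, h m hm, sub_self]
    · obtain ⟨k, hk⟩ := mxring_pow (Subring.center T) M (P i) (u2 g - 1) (hin _ i)
        fun m hm h0 => h m hm (by
          rw [sub_smul, one_smul, hsm] at h0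
          exact sub_eq_zero.1 h0)
      refine Or.inr ⟨p (u2 g - 1) ^ k, ?_⟩
      have h5 := hz i _ hk
      rwa [mxring_map] at h5
  · intro a b y
    obtain ⟨y, rfl⟩ := hp y
    have h6 : y • (a + b) = y • a + y • b := AddMonoidHom.map_add (ρ y) a b
    rw [hΨ, hΨ, hΨ, h6, θ.map_add_eq_mul]

theorem ring_ex : StmtRing := by
  intro G _ _ e A B N hB hab hle hpc hN L _ χ
  letI : CommGroup B :=
    { (inferInstance : Group B) with mul_comm := fun a b => Subtype.ext (hab _ a.2 _ b.2) }
  have key : ∀ g g2 : N, ∀ a ∈ B,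
      ((g : G) * g2)⁻¹ * a * (g * g2) = ((g2 : G) * g)⁻¹ * a * (g2 * g) := by
    intro g g2 a ha
    have h1 := Fr.mem_cz.1 (hN _ g2.2 _ g.2) a ha
    rw [commutatorElement_def] at h1
    calc ((g : G) * g2)⁻¹ * a * (g * g2)
        = ((g2 : G) * g)⁻¹ * ((g2 : G) * g * (g2 : G)⁻¹ * (g : G)⁻¹ * a) * (g * g2) := by group
      _ = ((g2 : G) * g)⁻¹ * a * (g2 * g) := by
          rw [h1]
          group
  let ac : N → AddMonoid.End (Additive B) := fun g =>
    { toFun := fun m => Additive.ofMul (cj hB g m.toMul)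
      map_zero' := by
        apply Additive.toMul.injective
        apply Subtype.ext
        change (g : G)⁻¹ * 1 * g = 1
        group
      map_add' := by
        intro a b
        apply Additive.toMul.injective
        apply Subtype.ext
        change (g : G)⁻¹ * ((a.toMul : B) * (b.toMul : B) : G) * g =
          (g : G)⁻¹ * (a.toMul : B) * g * ((g : G)⁻¹ * (b.toMul : B) * g)
        group }
  have hext : ∀ x y : AddMonoid.End (Additive B),
      (∀ a : B, (((x (Additive.ofMul a)).toMul : B) : G) = ((y (Additive.ofMul a)).toMul : B)) →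
      x = y := by
    intro x y hxy
    apply AddMonoidHom.ext
    intro m
    apply Additive.toMul.injective
    exact Subtype.ext (hxy m.toMul)
  let act : N →* AddMonoid.End (Additive B) :=
    { toFun := ac
      map_one' := by
        apply hext
        intro a
        change (1 : G)⁻¹ * a * 1 = a
        group
      map_mul' := by
        intro g g2
        apply hext
        intro a
        change ((g : G) * g2)⁻¹ * a * (g * g2) = (g : G)⁻¹ * ((g2 : G)⁻¹ * a * g2) * g
        rw [key g g2 a a.2]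
        group }
  let θ : AddChar (Additive B) L :=
    { toFun := fun m => χ m.toMul
      map_zero_eq_one' := map_one χ
      map_add_eq_mul' := fun a b => map_mul χ _ _ }
  let P : Fin e → AddSubgroup (Additive B) := fun i =>
    Subgroup.toAddSubgroup ((A i).subgroupOf B)
  have hP : ∀ i (m : Additive B), m ∈ P i ↔ ((m.toMul : B) : G) ∈ A i := fun _ _ => Iff.rfl
  obtain ⟨R, i1, i2, i3, u, Ψ, I, hcard, hu, hfa, hadd, hI, hΨ⟩ :=
    mxring_end N (Additive B) L e P act (by
      intro g g2
      apply hext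
      intro a
      change (g : G)⁻¹ * ((g2 : G)⁻¹ * a * g2) * g = (g2 : G)⁻¹ * ((g : G)⁻¹ * a * g) * g2
      have := key g g2 a a.2
      calc (g : G)⁻¹ * ((g2 : G)⁻¹ * a * g2) * g = ((g2 : G) * g)⁻¹ * a * (g2 * g) := by group
        _ = ((g : G) * g2)⁻¹ * a * (g * g2) := this.symm
        _ = (g2 : G)⁻¹ * ((g : G)⁻¹ * a * g) * g2 := by group) θ
      (fun i g m hm => (hP i _).2 ((hpc i).normal.conj_mem' _ ((hP i m).1 hm) g))
      (by
        intro i g
        by_cases h : ∀ b ∈ A i, (g : G) * b = b * g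
        · refine Or.inl fun m hm => ?_
          apply Additive.toMul.injective
          apply Subtype.ext
          change (g : G)⁻¹ * (m.toMul : B) * g = (m.toMul : B)
          rw [mul_assoc, ← h _ ((hP i m).1 hm)]
          group
        · refine Or.inr fun m hm h2 => ?_
          by_contra h0
          apply h
          have h1 : (g : G)⁻¹ * (m.toMul : B) * g = (m.toMul : B) :=
            congrArg (fun x : Additive B => ((x.toMul : B) : G)) h2
          refine (hpc i).fpf g (m.toMul : B) ((hP i m).1 hm) (fun e => h0 ?_) ?_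
          · apply Additive.toMul.injective
            exact Subtype.ext e
          · calc (g : G) * (m.toMul : B) = g * ((g : G)⁻¹ * (m.toMul : B) * g) := by rw [h1]
              _ = (m.toMul : B) * g := by group)
  refine ⟨R, i1, i2, i3, u, fun a => Ψ (Additive.ofMul a), I, ?_, hu,
    fun y hy => hfa y fun a => hy a.toMul, fun a b y => hadd _ _ y, fun i y => ?_,
    fun a g => hΨ _ g⟩
  · exact hcard.trans (Subgroup.card_le_card_group B)
  · rw [hI]
    exact ⟨fun h a ha => h _ ((hP i _).2 ha), fun h a ha => h a.toMul ((hP i a).1 ha)⟩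

end Pool.Agent.Work.MP_11a08a_al.Mx
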