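import Pool.Agent.Work.MP_11a08a_al.Mx.Defs

/-!
An abelian group acting freely is cyclic.
-/

set_option autoImplicit false

namespace Pool.Agent.Work.MP_11a08a_al.Mx

open Pool.Agent.Work.MP_11a08a_al.Fr (cz cj AbMod mem_cz)

theorem mxcyc_char {G : Type} [Group G] [Finite G] (A : Subgroup G)
    (hc : ∀ a ∈ A, ∀ b ∈ A, a * b = b * a) (a : A) (ha : a ≠ 1) :
    ∃ χ : A →* ℂ, χ a ≠ 1 := by
  let : CommGroup A :=
    { (inferInstance : Group A) with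
      mul_comm := fun x y => Subtype.ext (hc _ x.2 _ y.2) }
  obtain ⟨φ, hφ⟩ := CommGroup.exists_apply_ne_one_of_hasEnoughRootsOfUnity A ℂ ha
  refine ⟨(Units.coeHom ℂ).comp φ, fun h => hφ ?_⟩
  exact Units.ext h

theorem mxcyc_gen {G F : Type} [Group G] [Finite G] [CommRing F] [IsDomain F] (φ : G →* F) :
    ∃ g₀ : G, ∀ g : G, ∃ k : ℕ, φ ((g₀ ^ k)⁻¹ * g) = 1 := by
  let ψ : G →* Fˣ := φ.toHomUnits
  have : Finite ψ.range := Finite.of_surjective _ ψ.rangeRestrict_surjective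
  have : IsCyclic ψ.range :=
    isCyclic_of_injective_ringHom ((Units.coeHom F).comp ψ.range.subtype)
      (Units.val_injective.comp Subtype.val_injective)
  obtain ⟨x, hx⟩ := IsCyclic.exists_monoid_generator (α := ψ.range)
  obtain ⟨g₀, hg₀⟩ := x.2
  refine ⟨g₀, fun g => ?_⟩
  obtain ⟨k, hk⟩ := hx ⟨ψ g, g, rfl⟩
  refine ⟨k, ?_⟩
  have h1 : ψ g₀ ^ k = ψ g := by
    rw [hg₀]
    exact congrArg Subtype.val hk
  have h2 : ψ ((g₀ ^ k)⁻¹ * g) = 1 := by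
    rw [map_mul, map_inv, map_pow, h1, inv_mul_cancel]
  exact congrArg Units.val h2

theorem mxcyc_fix {G : Type} [Group G] [Finite G] {A : Subgroup G} (hA : Piece A) (χ : A →* ℂ)
    {a₀ : A} (h₀ : χ a₀ ≠ 1) (t : G) (ht : ∀ a, χ (cj hA.normal t a) = χ a) : t ∈ cz A := by
  by_contra hn
  have inj : Function.Injective fun a : A => cj hA.normal t a * a⁻¹ := fun a b e => by
    have e1 : t⁻¹ * a * t * (a : G)⁻¹ = t⁻¹ * b * t * (b : G)⁻¹ := congrArg Subtype.val e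
    have e2 : t * ((b : G)⁻¹ * a) = (b : G)⁻¹ * a * t := by
      calc t * ((b : G)⁻¹ * a) = (b : G)⁻¹ * t * (t⁻¹ * b * t * (b : G)⁻¹) * a := by group
        _ = (b : G)⁻¹ * t * (t⁻¹ * a * t * (a : G)⁻¹) * a := by rw [e1]
        _ = _ := by group
    by_contra hab
    refine hn (mem_cz.2 (hA.fpf t _ (A.mul_mem (A.inv_mem b.2) a.2) (fun e3 => hab ?_) e2))
    exact Subtype.ext (inv_mul_eq_one.1 e3).symm
  obtain ⟨a, ha⟩ := Finite.surjective_of_injective inj a₀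
  apply h₀
  rw [← ha, map_mul, ht, ← map_mul, mul_inv_cancel, map_one]

theorem cyc (h : StmtRing) : StmtCyc := by
  intro G _ _ A N hA hN
  by_cases hne : ∃ a : A, a ≠ 1
  · obtain ⟨a, ha⟩ := hne
    obtain ⟨χ, hχ⟩ := mxcyc_char A hA.comm a ha
    obtain ⟨R, _, _, _, u, Ψ, I, -, hI, hf, -, hk, hv⟩ :=
      h G 1 (fun _ => A) A N hA.normal hA.comm (fun _ => le_rfl) (fun _ => hA) hN ℂ χ
    have z : ∀ y ∈ I 0, y = 0 := fun y hy => hf y fun b => (hk 0 y).1 hy b b.2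
    have one : ∀ b : A, Ψ b 1 = χ b := fun b => by
      have := hv b 1
      rw [map_one] at this
      rw [this]
      exact congrArg χ (Subtype.ext (by simp [cj]))
    have : Nontrivial R := by
      refine nontrivial_of_ne 1 0 fun e => hχ ?_
      rw [← one, e, AddChar.map_zero_eq_one]
    obtain ⟨m, hm⟩ := Ideal.exists_maximal R
    have := hm.isPrime
    obtain ⟨g₀, hg₀⟩ := mxcyc_gen ((Ideal.Quotient.mk m).toMonoidHom.comp u)
    refine ⟨g₀, g₀.2, fun g hg => ?_⟩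
    obtain ⟨k, hk⟩ := hg₀ ⟨g, hg⟩
    refine ⟨k, mxcyc_fix hA χ hχ ((g₀ ^ k)⁻¹ * ⟨g, hg⟩ : N) fun b => ?_⟩
    have hmem : u ((g₀ ^ k)⁻¹ * ⟨g, hg⟩) - 1 ∈ m := by
      rw [← Ideal.Quotient.eq, map_one]
      exact hk
    rw [← hv, ← one]
    rcases hI 0 ((g₀ ^ k)⁻¹ * ⟨g, hg⟩) with e | ⟨y, e⟩
    · rw [sub_eq_zero.1 (z _ e)]
    · refine absurd ((Ideal.eq_top_iff_one m).2 ?_) hm.ne_top
      rw [sub_eq_zero.1 (z _ e)]
      exact m.mul_mem_right _ hmem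
  · refine ⟨1, N.one_mem, fun g _ => ⟨0, mem_cz.2 fun a ha => ?_⟩⟩
    have : (⟨a, ha⟩ : A) = 1 := by
      by_contra hn
      exact hne ⟨_, hn⟩
    have h2 : a = 1 := congrArg Subtype.val this
    rw [h2, mul_one, one_mul]

end Pool.Agent.Work.MP_11a08a_al.Mx
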