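import Pool.Agent.Work.MP_11a08a_al.Mx.Defs

/-! The representation is monomial on the cosets of the stabiliser of the character. -/

set_option autoImplicit false

open Finset

namespace Pool.Agent.Work.MP_11a08a_al.Mx

open Pool.Agent.Work.MP_11a08a_al.Fr (cz cj AbMod)

theorem mxstruct_li {L V A ι : Type} [Field L] [AddCommGroup V] [Module L V] [Monoid A]
    [Fintype ι] (T : A → V →ₗ[L] V) (b : ι → V) (c : ι → A →* L) (hc : Function.Injective c)
    (hb : ∀ x, b x ≠ 0) (h : ∀ a x, T a (b x) = c x a • b x) : LinearIndependent L b := by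
  rw [Fintype.linearIndependent_iff]
  intro t ht x
  have hli := (linearIndependent_monoidHom A L).comp c hc
  rw [Fintype.linearIndependent_iff] at hli
  have key : ∀ lam : Module.Dual L V, lam (t x • b x) = 0 := by
    intro lam
    have := hli (fun y => t y * lam (b y)) (by
      funext a
      have h1 := congrArg (fun w => lam (T a w)) ht
      simp only [map_sum, map_smul, h, map_zero, smul_eq_mul] at h1
      simp only [Finset.sum_apply, Pi.smul_apply, Function.comp_apply, smul_eq_mul, Pi.zero_apply]
      rw [← h1]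
      exact sum_congr rfl fun y _ => by ring) x
    simpa using this
  exact (smul_eq_zero.1 ((Module.forall_dual_apply_eq_zero_iff L _).1 key)).resolve_right (hb x)

theorem mxstruct_dist {L G : Type} [Field L] [Group G] {B C : Subgroup G} (hB : B.Normal)
    (χ : B →* L) (hS : Stab hB χ C) (g g2 : G)
    (h : ∀ a : B, χ (cj hB g a) = χ (cj hB g2 a)) : g⁻¹ * g2 ∈ C := by
  by_contra hc
  obtain ⟨a, ha⟩ := hS.out _ hc
  apply ha
  have h2 := h (cj hB g⁻¹ a)
  have e1 : cj hB g (cj hB g⁻¹ a) = a := Subtype.ext (by simp only [cj]; group)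
  have e2 : cj hB g2 (cj hB g⁻¹ a) = cj hB (g⁻¹ * g2) a :=
    Subtype.ext (by simp only [cj]; group)
  rw [e1, e2] at h2
  exact h2.symm

theorem struct : StmtStruct := by
  intro L G V _ _ _ _ _ σ B C hB hirr χ v hv0 hva hS hcen
  classical
  have hN := hS.normal
  have hσ : ∀ g h w, σ (g * h) w = σ g (σ h w) := fun g h w => by rw [map_mul]; rfl
  have hσ0 : ∀ g w, σ g w = 0 → w = 0 := by
    intro g w h
    have := hσ g⁻¹ g w
    rw [h] at this
    simpa using this
  have hmove : ∀ (a : B) (g : G), σ a (σ g v) = χ (cj hB g a) • σ g v := by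
    intro a g
    have e : (a : G) * g = g * (cj hB g a : B) := by simp only [cj]; group
    rw [← hσ, e, hσ, hva, map_smul]
  have hker : ∀ c ∈ C, ∃ (a : B) (ω : L), ∀ g : G,
      σ c (σ g v) = (ω * χ (cj hB g a)) • σ g v := by
    intro c hc
    obtain ⟨a, ω, hω⟩ := hcen c hc
    exact ⟨a, ω, fun g => by rw [hω, hmove a g, smul_smul]⟩
  have := Fintype.ofFinite (G ⧸ C)
  let b : G ⧸ C → V := fun x => σ x.out v
  have hb0 : ∀ x, b x ≠ 0 := fun x h => hv0 (hσ0 _ _ h)
  have hmk : ∀ (g : G) (x : G ⧸ C), ((g * x.out : G) : G ⧸ C) = g • x := fun g x =>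
    MulAction.Quotient.mk_smul_out C g x
  have hκ : ∀ g x, ∃ k : L, σ g (b x) = k • b (g • x) := by
    intro g x
    have hc : ((g • x).out)⁻¹ * (g * x.out) ∈ C :=
      QuotientGroup.eq.1 (by rw [hmk, QuotientGroup.out_eq'])
    obtain ⟨a, ω, he⟩ := hker _ hc
    have he1 := he 1
    simp only [map_one, Module.End.one_apply] at he1
    refine ⟨ω * χ (cj hB 1 a), ?_⟩
    have : σ g (b x) = σ (g • x).out (σ (((g • x).out)⁻¹ * (g * x.out)) v) := by
      show σ g (σ x.out v) = _
      rw [← hσ, ← hσ]; congr 1; group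
    rw [this, he1, map_smul]
  choose κ hκ using hκ
  let ch : G ⧸ C → B →* L := fun x =>
    { toFun := fun a => χ (cj hB x.out a)
      map_one' := by
        rw [show cj hB x.out 1 = 1 from Subtype.ext (by simp [cj]), map_one]
      map_mul' := fun a a' => by
        rw [← map_mul]
        congr 1
        exact Subtype.ext (by simp only [cj, Subgroup.coe_mul]; group) }
  have hch : Function.Injective ch := by
    intro x y h
    have h1 := mxstruct_dist hB χ hS x.out y.out fun a => DFunLike.congr_fun h a
    rw [← QuotientGroup.out_eq' x, ← QuotientGroup.out_eq' y]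
    exact QuotientGroup.eq.2 h1
  have hli : LinearIndependent L b :=
    mxstruct_li (fun a : B => σ a) b ch hch hb0 fun a x => hmove a x.out
  have hspan : ⊤ ≤ Submodule.span L (Set.range b) := by
    rcases hirr (Submodule.span L (Set.range b)) (fun g w hw => by
      induction hw using Submodule.span_induction with
      | mem w hw =>
        obtain ⟨x, rfl⟩ := hw
        rw [hκ]; exact Submodule.smul_mem _ _ (Submodule.subset_span ⟨_, rfl⟩)
      | zero => simp
      | add x y _ _ hx hy => rw [map_add]; exact Submodule.add_mem _ hx hy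
      | smul c x _ hx => rw [map_smul]; exact Submodule.smul_mem _ _ hx) with h | h
    · exfalso
      have : b ((1 : G) : G ⧸ C) ∈ Submodule.span L (Set.range b) :=
        Submodule.subset_span ⟨_, rfl⟩
      rw [h] at this
      exact hb0 _ (by simpa using this)
    · exact h.ge
  refine ⟨Module.Basis.mk hli hspan, κ, ?_, ?_, ?_⟩
  · intro g x; simpa using hκ g x
  · intro g x h
    have := hκ g x
    rw [h, zero_smul] at this
    exact hb0 x (hσ0 _ _ this)
  · intro g g' hc
    obtain ⟨a, ω, he⟩ := hker _ hc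
    refine ⟨a, ω, fun x => ?_⟩
    have hπ : g' • x = g • x := by
      rw [← hmk, ← hmk]
      refine (QuotientGroup.eq.2 ?_).symm
      have h0 := hN.conj_mem' _ hc x.out
      rwa [show (g * x.out)⁻¹ * (g' * x.out) = x.out⁻¹ * (g⁻¹ * g') * x.out by group]
    have h1 : σ g' (b x) = σ g (σ (g⁻¹ * g') (b x)) := by
      rw [← hσ g (g⁻¹ * g') (b x), mul_inv_cancel_left]
    have h3 : σ (g⁻¹ * g') (b x) = (ω * χ (cj hB x.out a)) • b x := he x.out
    rw [h3, map_smul, hκ, hκ, hπ, smul_smul] at h1
    exact smul_left_injective L (hb0 (g • x)) h1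

end Pool.Agent.Work.MP_11a08a_al.Mx
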