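import Pool.Agent.Work.MP_11a08a_al.Mx.Defs

/-!
The join of commuting normal subgroups.
-/

set_option autoImplicit false

open Finset

namespace Pool.Agent.Work.MP_11a08a_al.Mx

open Pool.Agent.Work.MP_11a08a_al.Fr (cz mem_cz)

theorem mxfac_cz {G : Type} [Group G] {e : ℕ} (A : Fin e → Subgroup G) (g : G)
    (h : ∀ i, g ∈ cz (A i)) : g ∈ cz (⨆ i, A i) := by
  refine mem_cz.2 fun a ha => ?_
  refine Subgroup.iSup_induction A (C := fun a => g * a = a * g) ha
    (fun i x hx => mem_cz.1 (h i) x hx) (by simp) ?_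
  intro x y hx hy
  rw [← mul_assoc, hx, mul_assoc, hy, mul_assoc]

theorem fac : StmtFac := by
  intro G _ e A hn hc
  refine ⟨?_, ?_, fun g hg => mxfac_cz A g hg, ?_⟩
  · refine ⟨fun a ha g => ?_⟩
    refine Subgroup.iSup_induction A (C := fun a => g * a * g⁻¹ ∈ ⨆ i, A i) ha
      (fun i x hx => Subgroup.mem_iSup_of_mem i ((hn i).conj_mem x hx g)) (by simp) ?_
    intro x y hx hy
    have : g * (x * y) * g⁻¹ = g * x * g⁻¹ * (g * y * g⁻¹) := by group
    rw [this]
    exact mul_mem hx hy
  · intro a ha b hb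
    refine mem_cz.1 (mxfac_cz A a fun j => mem_cz.2 fun c hc' => ?_) b hb
    exact (mem_cz.1 (mxfac_cz A c fun i => mem_cz.2 fun d hd => hc j i c hc' d hd) a ha).symm
  · intro K _ F a
    classical
    obtain ⟨a, ha⟩ := a
    refine Subgroup.iSup_induction' A (C := fun a ha => ∃ c : Fin e → ↥(⨆ i, A i),
      (∀ i, (c i : G) ∈ A i) ∧ F ⟨a, ha⟩ = ∏ i, F (c i)) ?_ ?_ ?_ ha
    · intro i x hx
      refine ⟨Function.update 1 i ⟨x, Subgroup.mem_iSup_of_mem i hx⟩, fun j => ?_, ?_⟩
      · by_cases hj : j = i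
        · subst hj
          simpa using hx
        · rw [Function.update_of_ne hj]
          exact one_mem _
      · rw [Finset.prod_eq_single i]
        · simp
        · intro j _ hj
          rw [Function.update_of_ne hj]
          exact map_one F
        · intro hi
          exact absurd (Finset.mem_univ i) hi
    · refine ⟨1, fun i => one_mem _, ?_⟩
      simp only [Pi.one_apply, map_one, Finset.prod_const_one]
      exact map_one F
    · rintro x y hx hy ⟨c, hc1, hc2⟩ ⟨d, hd1, hd2⟩
      refine ⟨c * d, fun i => mul_mem (hc1 i) (hd1 i), ?_⟩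
      simp only [Pi.mul_apply, map_mul, Finset.prod_mul_distrib]
      rw [← hc2, ← hd2, ← map_mul]
      rfl

end Pool.Agent.Work.MP_11a08a_al.Mx
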