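import Pool.Agent.Work.MP_11a08a_al.Af.Defs
import Pool.Agent.Work.MP_11a08a_al.Fr.Defs2

/-!
Statements for boundedly many free pieces with a non-abelian acting group.
-/

set_option autoImplicit false

open Finset
open scoped commutatorElement

namespace Pool.Agent.Work.MP_11a08a_al.Mx

open Pool.Agent.Work.MP_11a08a_al.Fr (cz cj AbMod)

/-- An abelian normal subgroup on which every element acts trivially or without fixed points. -/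
structure Piece {G : Type} [Group G] (A : Subgroup G) : Prop where
  normal : A.Normal
  comm : ∀ a ∈ A, ∀ b ∈ A, a * b = b * a
  fpf : ∀ g : G, ∀ a ∈ A, a ≠ 1 → g * a = a * g → ∀ b ∈ A, g * b = b * g

/-- `G = A H` with `A` a product of commuting pieces whose centralisers lie in `A Z(H)`. -/
structure MixG {G : Type} [Group G] {e : ℕ} (A : Fin (e + 1) → Subgroup G) (H : Subgroup G) :
    Prop where
  piece : ∀ i, Piece (A i)
  comm : ∀ i j, ∀ a ∈ A i, ∀ b ∈ A j, a * b = b * a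
  top : (⨆ i, A i) ⊔ H = ⊤
  cen : ∀ i, ∀ g ∈ cz (A i), ∃ a ∈ ⨆ i, A i, ∃ z ∈ H, (∀ h ∈ H, z * h = h * z) ∧ g = a * z

/-- The join of commuting normal subgroups. -/
def StmtFac : Prop :=
  ∀ (G : Type) [Group G] (e : ℕ) (A : Fin e → Subgroup G), (∀ i, (A i).Normal) →
    (∀ i j, ∀ a ∈ A i, ∀ b ∈ A j, a * b = b * a) →
    (⨆ i, A i).Normal ∧ (∀ a ∈ ⨆ i, A i, ∀ b ∈ ⨆ i, A i, a * b = b * a) ∧
    (∀ g : G, (∀ i, g ∈ cz (A i)) → g ∈ cz (⨆ i, A i)) ∧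
    ∀ (K : Type) [CommMonoid K] (F : ↥(⨆ i, A i) →* K) (a : ↥(⨆ i, A i)),
      ∃ c : Fin e → ↥(⨆ i, A i), (∀ i, (c i : G) ∈ A i) ∧ F a = ∏ i, F (c i)

/-- The ring attached to a character. -/
def StmtRing : Prop :=
  ∀ (G : Type) [Group G] [Finite G] (e : ℕ) (A : Fin e → Subgroup G) (B N : Subgroup G)
    (hB : B.Normal), (∀ a ∈ B, ∀ b ∈ B, a * b = b * a) → (∀ i, A i ≤ B) → (∀ i, Piece (A i)) →
    (∀ x ∈ N, ∀ y ∈ N, ⁅x, y⁆ ∈ cz B) → ∀ (L : Type) [Field L] (χ : B →* L),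
    ∃ (R : Type) (_ : CommRing R) (_ : Fintype R) (_ : DecidableEq R) (u : N →* R)
      (Ψ : B → AddChar R L) (I : Fin e → Ideal R), Fintype.card R ≤ Nat.card G ∧
      (∀ i g, u g - 1 ∈ I i ∨ ∃ y, 1 - (u g - 1) * y ∈ I i) ∧
      (∀ y, (∀ a, Ψ a y = 1) → y = 0) ∧ (∀ a b y, Ψ (a * b) y = Ψ a y * Ψ b y) ∧
      (∀ i y, y ∈ I i ↔ ∀ a : B, (a : G) ∈ A i → Ψ a y = 1) ∧
      ∀ (a : B) (g : N), Ψ a (u g) = χ (cj hB g a)

/-- An abelian group acting freely is cyclic. -/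
def StmtCyc : Prop :=
  ∀ (G : Type) [Group G] [Finite G] (A N : Subgroup G), Piece A →
    (∀ x ∈ N, ∀ y ∈ N, ⁅x, y⁆ ∈ cz A) → ∃ g₀ ∈ N, ∀ g ∈ N, ∃ k : ℕ, (g₀ ^ k)⁻¹ * g ∈ cz A

/-- A subgroup of small index that is abelian modulo the centraliser. -/
def StmtAb : Prop :=
  ∀ (G : Type) [Group G] [Finite G] (A H₀ : Subgroup G), Piece A →
    (∀ x ∈ ⁅H₀, H₀⁆, ∀ y ∈ ⁅H₀, H₀⁆, ⁅x, y⁆ ∈ cz A) →
    ∃ (N : Subgroup G) (m : ℕ), AbMod A N ∧ N.index ≤ m * H₀.index ∧ 2 ^ m ≤ 2 * Nat.card G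

/-- `C` is the stabiliser of the character `χ`, and it is normal. -/
structure Stab {G L : Type} [Group G] [Field L] {B : Subgroup G} (hB : B.Normal) (χ : B →* L)
    (C : Subgroup G) : Prop where
  normal : C.Normal
  out : ∀ g, g ∉ C → ∃ a : B, χ (cj hB g a) ≠ χ a
  fix : ∀ c ∈ C, ∀ a : B, χ (cj hB c a) = χ a

/-- A common eigenvector and its stabiliser. -/
def StmtEig : Prop :=
  ∀ (L G V : Type) [Field L] [IsAlgClosed L] [Group G] [Finite G] [AddCommGroup V] [Module L V]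
    [FiniteDimensional L V] (σ : Representation L G V) (e : ℕ) (A : Fin (e + 1) → Subgroup G)
    (H N : Subgroup G) (hB : (⨆ i, A i).Normal), MixG A H → AbMod (A 0) N →
    (∀ W : Submodule L V, (∀ g, ∀ v ∈ W, σ g v ∈ W) → W = ⊥ ∨ W = ⊤) →
    Module.finrank L V ≤ N.index ∨
      ∃ (χ : ↥(⨆ i, A i) →* L) (v : V) (C : Subgroup G), v ≠ 0 ∧
        (∀ a : ↥(⨆ i, A i), σ a v = χ a • v) ∧ Stab hB χ C ∧
        ∀ c ∈ C, ∃ (a : ↥(⨆ i, A i)) (ω : L), ∀ w, σ c w = ω • σ a w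

/-- The representation is monomial on the cosets of the stabiliser. -/
def StmtStruct : Prop :=
  ∀ (L G V : Type) [Field L] [Group G] [Finite G] [AddCommGroup V] [Module L V]
    (σ : Representation L G V) (B C : Subgroup G) (hB : B.Normal),
    (∀ W : Submodule L V, (∀ g, ∀ v ∈ W, σ g v ∈ W) → W = ⊥ ∨ W = ⊤) →
    ∀ (χ : B →* L) (v : V), v ≠ 0 → (∀ a : B, σ a v = χ a • v) → Stab hB χ C →
    (∀ c ∈ C, ∃ (a : B) (ω : L), ∀ w, σ c w = ω • σ a w) →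
    ∃ (b : Module.Basis (G ⧸ C) L V) (κ : G → G ⧸ C → L),
      (∀ g x, σ g (b x) = κ g x • b (g • x)) ∧ (∀ g x, κ g x ≠ 0) ∧
      ∀ g g', g⁻¹ * g' ∈ C → ∃ (a : B) (ω : L), ∀ x : G ⧸ C,
        κ g' x = ω * χ (cj hB x.out a) * κ g x

/-- The number of cosets on which a sparse sum of conjugate character values is nonzero. -/
def StmtCount : Prop :=
  ∀ ε : ℝ, 0 < ε → ∀ q e : ℕ, ∃ c : ℝ, 0 < c ∧
    ∀ (L G : Type) [Field L] [Group G] [Finite G] (A : Fin e → Subgroup G) (N C : Subgroup G)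
      (hB : (⨆ i, A i).Normal), (∀ i, Piece (A i)) →
      (∀ i j, ∀ a ∈ A i, ∀ b ∈ A j, a * b = b * a) → (∀ x ∈ N, ∀ y ∈ N, ⁅x, y⁆ ∈ cz (⨆ i, A i)) →
      ∀ (χ : ↥(⨆ i, A i) →* L) (a : Fin q → ↥(⨆ i, A i)) (β : Fin q → L), Stab hB χ C →
      (∃ x : G ⧸ C, ∑ l, β l * χ (cj hB x.out (a l)) ≠ 0) →
      c * C.relIndex N ≤ (Nat.card G : ℝ) ^ ε *
        Nat.card {x : G ⧸ C // ∑ l, β l * χ (cj hB x.out (a l)) ≠ 0}

/-- The rank bound over algebraically closed fields. -/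
def StmtRep : Prop :=
  ∀ (δ : ℝ), 0 < δ → ∀ q d e : ℕ, ∃ c : ℝ, 0 < c ∧
    ∀ (L G V : Type) [Field L] [IsAlgClosed L] [Group G] [Finite G] [AddCommGroup V] [Module L V]
      [FiniteDimensional L V] (σ : Representation L G V) (A : Fin (e + 1) → Subgroup G)
      (H H₀ : Subgroup G), MixG A H → H₀.index ≤ d →
      (∀ x ∈ ⁅H₀, H₀⁆, ∀ y ∈ ⁅H₀, H₀⁆, ⁅x, y⁆ ∈ cz (⨆ i, A i)) →
      (∀ W : Submodule L V, (∀ g, ∀ v ∈ W, σ g v ∈ W) → W = ⊥ ∨ W = ⊤) →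
      ∀ (h : Fin q → G) (β : Fin q → L), ∑ l, β l • σ (h l) ≠ 0 →
        (Module.finrank L V : ℝ) ≤
          c * (Nat.card G : ℝ) ^ δ * Module.finrank L (LinearMap.range (∑ l, β l • σ (h l)))

end Pool.Agent.Work.MP_11a08a_al.Mx
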