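import Pool.Agent.Work.MP_11a08a_al.Af.Main
import Pool.Agent.Work.MP_11a08a_al.Cp.Mono
import Pool.Agent.Work.MP_11a08a_al.Fr.Ab0
import Pool.Agent.Work.MP_11a08a_al.Fr.Ab1
import Pool.Agent.Work.MP_11a08a_al.Mx.Ab
import Pool.Agent.Work.MP_11a08a_al.Mx.Count
import Pool.Agent.Work.MP_11a08a_al.Mx.Cyc
import Pool.Agent.Work.MP_11a08a_al.Mx.Eig
import Pool.Agent.Work.MP_11a08a_al.Mx.Fac
import Pool.Agent.Work.MP_11a08a_al.Mx.Rep
import Pool.Agent.Work.MP_11a08a_al.Mx.Ring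
import Pool.Agent.Work.MP_11a08a_al.Mx.Struct
import Pool.Agent.Work.MP_11a08a_al.Sol.Main

/-!
The rank bound over every field.
-/

set_option autoImplicit false

open Finset Module
open scoped commutatorElement

namespace Pool.Agent.Work.MP_11a08a_al.Mx

open Pool.Agent.Work.MP_11a08a_al.Fr (cz mem_cz)

theorem rep_all : StmtRep :=
  rep fac (ab Fr.ab0 Fr.ab1 (cyc ring_ex)) (eig fac (cyc ring_ex)) struct
    (count Af.nt3_all ring_ex fac) Cp.mono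

theorem mixG_of {G : Type} [Group G] {e : ℕ} {A : Fin (e + 1) → Subgroup G} {H : Subgroup G}
    (h1 : ∀ i, (A i).Normal) (h2 : ∀ i j, ∀ a ∈ A i, ∀ b ∈ A j, a * b = b * a)
    (h3 : ∀ i, ∀ g ∉ cz (A i), ∀ a ∈ A i, g * a = a * g → a = 1) (h4 : (⨆ i, A i) ⊔ H = ⊤)
    (h5 : ∀ i, cz (A i) ≤ (⨆ j, A j) ⊔ (H ⊓ cz H)) : MixG A H := by
  refine ⟨fun i => ⟨h1 i, h2 i i, fun g a ha h7 h8 => ?_⟩, h2, h4, fun i g hg => ?_⟩
  · by_contra h9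
    exact h7 (h3 i g (fun e => h9 (mem_cz.1 e)) a ha h8)
  · have := (fac G _ A h1 h2).1
    have h6 := h5 i hg
    rw [← SetLike.mem_coe, Subgroup.normal_mul] at h6
    obtain ⟨a, ha, z, hz, e⟩ := h6
    exact ⟨a, ha, z, hz.1, mem_cz.1 hz.2, e.symm⟩

theorem final (ε : ℝ) (hε : 0 < ε) (q d e : ℕ) : ∃ N : ℕ, ∀ n > N,
    ∀ (F : Type) [Field F] (G : Type) [Group G] [Finite G] (A : Fin (e + 1) → Subgroup G)
      (H H₀ : Subgroup G), MixG A H → H₀.index ≤ d →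
      (∀ x ∈ ⁅H₀, H₀⁆, ∀ y ∈ ⁅H₀, H₀⁆, ⁅x, y⁆ ∈ cz (⨆ i, A i)) →
      ∀ ρ : Representation F G (Fin n → F), ρ.IsIrreducible → (Nat.card G : ℝ) ^ ε ≤ n →
      ∀ (h : Fin q → G) (α : Fin q → F), ∑ l, α l • ρ (h l) ≠ 0 →
        (n : ℝ) ^ (1 - ε) ≤ finrank F (LinearMap.range (∑ l, α l • ρ (h l))) := by
  obtain ⟨c, hc, K⟩ := rep_all (ε ^ 2 / 2) (by positivity) q d e
  obtain ⟨N, hN⟩ := Sol.fin_num ε hε c hc
  refine ⟨N, fun n hn F _ G _ _ A H H₀ hA hd hH ρ hirr hg h α hne => ?_⟩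
  have := Fintype.ofFinite G
  refine hN n hn (Nat.card G) _ hg ?_
  exact Sol.fin_step Sol.ideal Sol.change ρ α h hirr hne (AlgebraicClosure F)
    (Or.inl ⟨algebraMap _ _⟩) (by positivity)
    fun β V _ _ _ σ a b => K _ G V σ A H H₀ hA hd hH a h β b

end Pool.Agent.Work.MP_11a08a_al.Mx
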